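import Pool.Agent.N837.LP.AppC

set_option autoImplicit false

/-! # Given residues: a positive proportion of the moduli in short intervals

For every `δ > 0` there is `C` such that for all `m ≥ 1`, `A ≥ 1`, `0 < η ≤ 1`, all large `Y` and
every set `S` of at most `m` nonzero integers `a`, `|a| ≤ Y / 2`, with product `± D`: at least
`(φ(D) / D) Y ^ η exp(-exp(C m A / η))` of the integers `d` in `(Y, Y + Y ^ η]` are prime to `D`
and none of the classes `a` modulo `d`, `a ∈ S`, contains a prime other than `a` up to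
`A (φ(D) / D) d log d`. -/

namespace Pool.Agent.Results.MP_458f0b_nt.GivenResiduesTail

theorem result : ∀ δ : ℝ, 0 < δ → ∃ C : ℝ, ∀ (m : ℕ) (A η : ℝ), 1 ≤ m → 1 ≤ A → 0 < η →
    η ≤ 1 → ∃ Y₀ : ℝ, ∀ Y : ℝ, Y₀ ≤ Y → ∀ S : Finset ℤ, S.card ≤ m → (∀ a ∈ S, a ≠ 0) →
      (∀ a ∈ S, |(a : ℝ)| ≤ Y / 2) →
      (((∏ a ∈ S, a.natAbs).totient : ℝ) / ((∏ a ∈ S, a.natAbs : ℕ) : ℝ)) * Y ^ η *
          Real.exp (-Real.exp (C * m * A / η)) ≤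
        (({d : ℕ | Y < d ∧ (d : ℝ) ≤ Y + Y ^ η ∧ (∀ a ∈ S, IsCoprime (d : ℤ) a) ∧
          ∀ a ∈ S, ∀ n : ℕ, 1 ≤ n → (n : ℤ) ≡ a [ZMOD d] → (n : ℤ) ≠ a →
            (n : ℝ) ≤ A * (((∏ a ∈ S, a.natAbs).totient : ℝ) / ((∏ a ∈ S, a.natAbs : ℕ) : ℝ)) *
              d * Real.log d →
              ∃ p : ℕ, p.Prime ∧ p ∣ n ∧ p < n ∧ (p : ℝ) ≤ Y ^ (η * δ)}).ncard : ℝ) :=
  fun δ hδ => Pool.Agent.N837.LP.fixedC δ hδ

end Pool.Agent.Results.MP_458f0b_nt.GivenResiduesTail
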