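import Pool.Agent.N837.LP.AppB

set_option autoImplicit false

/-! # Several classes at the same time, residues in short windows

For every modulus `d ≥ d₀(δ, m, A, η)`, every set `S` of at most `m` pairs `(u, h)`,
`1 ≤ u ≤ m`, `0 ≤ h < d`, and every real `M`: at least
`(φ(d) / d) d ^ η exp(-exp(C m ^ 3 A / η))` of the integers `a` in `(M, M + d ^ η]` are prime to `d`
and none of the classes `u a + h` modulo `d`, `(u, h) ∈ S`, contains a prime up to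
`A φ(d) log d`. -/

namespace Pool.Agent.Results.MP_458f0b_nt.JointShortWindows

theorem result : ∀ δ : ℝ, 0 < δ → ∃ C : ℝ, ∀ (m : ℕ) (A η : ℝ), 1 ≤ m → 1 ≤ A → 0 < η →
    η ≤ 1 → ∃ d₀ : ℕ, ∀ d : ℕ, d₀ ≤ d → ∀ S : Finset (ℕ × ℕ), S.card ≤ m →
      (∀ z ∈ S, 1 ≤ z.1 ∧ z.1 ≤ m ∧ z.2 < d) → ∀ M : ℝ,
      (d.totient : ℝ) / d * (d : ℝ) ^ η * Real.exp (-Real.exp (C * m ^ 3 * A / η)) ≤
        (({a : ℤ | M < a ∧ (a : ℝ) ≤ M + (d : ℝ) ^ η ∧ IsCoprime a (d : ℤ) ∧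
          ∀ z ∈ S, ∀ n : ℕ, 1 ≤ n → (n : ℤ) ≡ z.1 * a + z.2 [ZMOD d] →
            (n : ℝ) ≤ A * d.totient * Real.log d →
              ∃ p : ℕ, p.Prime ∧ p ∣ n ∧ p < n ∧ (p : ℝ) ≤ (d : ℝ) ^ (η * δ)}).ncard : ℝ) :=
  fun δ hδ => Pool.Agent.N837.LP.jointB δ hδ

end Pool.Agent.Results.MP_458f0b_nt.JointShortWindows
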