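import Mathlib
import Pool.Agent.N893.SM.W4
import Pool.Agent.N740.HK.Lim

/-!
# The largest least prime in the progressions modulo `d`, in all sieved sequential random models

The integers are decided one after the other; the multiples of the primes of a finite set `Q` are
never chosen and the conditional probability of choosing an integer `n + 1` which is not such a
multiple, given the decisions up to `n`, is asymptotic to `∏_{p ∈ Q} (1 - 1 / p)⁻¹ / log n`, almost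
surely.  No independence and no rate of convergence are assumed.  Let `P(d)` be the largest, over the
classes `a` modulo `d` such that no prime of `Q` divides both `a` and `d`, of the least chosen `n ≡ a`, and
`φ(d)` the analogue `d ∏_{p ∈ Q, p ∣ d} (1 - 1 / p)` of Euler's function.  In every such model, almost surely,
`1 ≤ liminf P(d) / (φ(d) log² d)`, `limsup P(d) / (φ(d) log² d) ≤ 2`, and `P(d) ~ φ(d) log² d` outside
of a set of `d` with at most `D ^ (1 - κ)` members up to `D`.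

Method (`Pool/Agent/N893/SM`).  Upper bounds: the exponential supermartingale
`exp (θ ∑ I - (e ^ θ - 1) ∑ P)` along one progression, with large negative `θ`.  Lower bound: the number of
the empty classes is the value at the end of the potential `∑_a 1[a is empty] ∏ (1 - r)` (the product over the
future members of the class), whose increments are `w (r - I)` with predictable weights `w` between `0` and `1`;
the exponential supermartingale with small `θ > 0` shows that it stays positive.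

The notion of a sequential model and the theorem on Hawkins' sieve are from the team files by helper528
(`Pool/Agent/R528/RM`) and helper740 (`Pool/Agent/N740/HK`).
-/

set_option autoImplicit false

open MeasureTheory Filter Set
open scoped Topology

namespace Pool.Agent.Results.MP_458f0b_nt.LargestLeast

variable {Ω : Type}

/-- `A n` is the event that `n` is chosen; adapted to `ℱ`; multiples of the primes in `Q` are not
chosen; the conditional probability of `A (n + 1)` given `ℱ n`, times `log n`, tends almost surely to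
`∏_{p ∈ Q} (1 - 1 / p)⁻¹` along the `n` such that no `p ∈ Q` divides `n + 1` -/
def SievedModel [m : MeasurableSpace Ω] (μ : Measure Ω) (ℱ : Filtration ℕ m) (A : ℕ → Set Ω)
    (Q : Finset ℕ) : Prop :=
  (∀ n, MeasurableSet[ℱ n] (A n)) ∧ (∀ n, (∃ p ∈ Q, p ∣ n) → A n = ∅) ∧
  ∀ᵐ ω ∂μ, Tendsto (fun n : ℕ => (μ[(A (n + 1)).indicator (fun _ => (1 : ℝ)) | ℱ n]) ω * Real.log n)
    (atTop ⊓ 𝓟 {n : ℕ | ∀ p ∈ Q, ¬ p ∣ n + 1}) (𝓝 (∏ p ∈ Q, (1 - 1 / (p : ℝ))⁻¹))

open Classical in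
/-- The random sieve of Hawkins: `2` is chosen, and given the decisions up to `n ≥ 2` the number
`n + 1` is chosen with probability `∏ (1 - 1 / h)`, the product over the chosen `2 ≤ h ≤ n`. -/
def HawkinsSieve [m : MeasurableSpace Ω] (μ : Measure Ω) (ℱ : Filtration ℕ m) (A : ℕ → Set Ω) : Prop :=
  (∀ n, MeasurableSet[ℱ n] (A n)) ∧ A 2 = univ ∧
  ∀ n, 2 ≤ n → μ[(A (n + 1)).indicator (fun _ => (1 : ℝ)) | ℱ n] =ᵐ[μ]
    fun ω => ∏ h ∈ Finset.Icc 2 n, if ω ∈ A h then 1 - 1 / (h : ℝ) else 1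

/-- the class of `a` modulo `d` is admissible: no prime of `Q` divides both `a` and `d` -/
def Adm (Q : Finset ℕ) (d a : ℕ) : Prop := ∀ p ∈ Q, ¬ (p ∣ a ∧ p ∣ d)

/-- `P(d)`: the least `X` such that all admissible classes modulo `d` contain a chosen `1 ≤ n ≤ X` (and `0` if
there is none) -/
noncomputable def P (A : ℕ → Set Ω) (ω : Ω) (Q : Finset ℕ) (d : ℕ) : ℕ :=
  sInf {X : ℕ | ∀ a : ℕ, Adm Q d a → ∃ n : ℕ, 1 ≤ n ∧ n ≤ X ∧ n ≡ a [MOD d] ∧ ω ∈ A n}

/-- the analogue of Euler's function -/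
noncomputable def phi (Q : Finset ℕ) (d : ℕ) : ℝ :=
  d * ∏ p ∈ Q.filter (fun p => p ∣ d), (1 - 1 / (p : ℝ))

open Pool.Agent.R528.RM Pool.Agent.N893.SM

lemma adm_rep {Q : Finset ℕ} {d a : ℕ} (hd : 1 ≤ d) (ha : Adm Q d a) :
    ∃ a' : ℕ, 1 ≤ a' ∧ a' ≤ d ∧ Ad Q d a' ∧ a' ≡ a [MOD d] := by
  have key : ∀ a', a' ≡ a [MOD d] → Ad Q d a' := by
    intro a' h p hp ⟨h1, h2⟩
    exact ha p hp ⟨(Nat.ModEq.dvd_iff h h2).1 h1, h2⟩
  by_cases h0 : a % d = 0
  · have h : d ≡ a [MOD d] := by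
      unfold Nat.ModEq
      rw [h0, Nat.mod_self]
    exact ⟨d, hd, le_rfl, key d h, h⟩
  · have h : a % d ≡ a [MOD d] := Nat.mod_modEq a d
    exact ⟨a % d, by omega, (Nat.mod_lt a hd).le, key _ h, h⟩

/-- all classes are hit: upper bound for `P` -/
lemma P_up {A : ℕ → Set Ω} {ω : Ω} {Q : Finset ℕ} {lam : ℝ} {d : ℕ} (hd : 1 ≤ d) (hlam : 0 ≤ lam * phiQ Q d * Real.log d ^ 2)
    (h : ∀ a : ℕ, 1 ≤ a → a ≤ d → Ad Q d a → ∃ k < JJ Q lam d, ω ∈ A (a + k * d)) :
    (P A ω Q d : ℝ) ≤ lam * phi Q d * Real.log d ^ 2 ∧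
    {X : ℕ | ∀ a : ℕ, Adm Q d a → ∃ n : ℕ, 1 ≤ n ∧ n ≤ X ∧ n ≡ a [MOD d] ∧ ω ∈ A n}.Nonempty := by
  have hdr : (0 : ℝ) < d := by exact_mod_cast hd
  have hmem : ⌊lam * phiQ Q d * Real.log d ^ 2⌋₊ ∈ {X : ℕ | ∀ a : ℕ, Adm Q d a → ∃ n : ℕ, 1 ≤ n ∧ n ≤ X ∧ n ≡ a [MOD d] ∧ ω ∈ A n} := by
    intro a ha
    obtain ⟨a', g1, g2, g3, g4⟩ := adm_rep hd ha
    obtain ⟨k, hk, hkA⟩ := h a' g1 g2 g3
    refine ⟨a' + k * d, by omega, Nat.le_floor ?_, ?_, hkA⟩
    · have e1 : a' + k * d ≤ JJ Q lam d * d := by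
        have : (k + 1) * d ≤ JJ Q lam d * d := Nat.mul_le_mul_right d hk
        have : (k + 1) * d = k * d + d := by ring
        omega
      have e2 : ((a' + k * d : ℕ) : ℝ) ≤ JJ Q lam d * d := by exact_mod_cast e1
      have e3 : (JJ Q lam d : ℝ) ≤ lam * phiQ Q d * Real.log d ^ 2 / d := Nat.floor_le (by positivity)
      have e4 := mul_le_mul_of_nonneg_right e3 hdr.le
      rw [div_mul_cancel₀ _ hdr.ne'] at e4
      linarith
    · have : a' + k * d ≡ a' [MOD d] := by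
        unfold Nat.ModEq
        rw [Nat.add_mul_mod_self_right]
      exact this.trans g4
  refine ⟨?_, ⟨_, hmem⟩⟩
  have h1 : P A ω Q d ≤ ⌊lam * phiQ Q d * Real.log d ^ 2⌋₊ := Nat.sInf_le hmem
  have h2 : (P A ω Q d : ℝ) ≤ (⌊lam * phiQ Q d * Real.log d ^ 2⌋₊ : ℝ) := by exact_mod_cast h1
  exact h2.trans (Nat.floor_le hlam)

/-- one class is missed: lower bound for `P` -/
lemma P_low {A : ℕ → Set Ω} {ω : Ω} {Q : Finset ℕ} {q d : ℕ}
    (hne : {X : ℕ | ∀ a : ℕ, Adm Q d a → ∃ n : ℕ, 1 ≤ n ∧ n ≤ X ∧ n ≡ a [MOD d] ∧ ω ∈ A n}.Nonempty)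
    (h : ∃ a < d, Ad Q d a ∧ ∀ n, 1 ≤ n → n ≤ XX Q q d → n % d = a → ω ∉ A n) :
    (1 - 1 / ((q : ℝ) + 2)) * phi Q d * Real.log d ^ 2 < P A ω Q d := by
  obtain ⟨a, h1, h2, h3⟩ := h
  have hP : P A ω Q d ∈ {X : ℕ | ∀ a : ℕ, Adm Q d a → ∃ n : ℕ, 1 ≤ n ∧ n ≤ X ∧ n ≡ a [MOD d] ∧ ω ∈ A n} := Nat.sInf_mem hne
  obtain ⟨n, g1, g2, g3, g4⟩ := hP a h2
  have hX : XX Q q d < P A ω Q d := by
    by_contra hcon
    refine h3 n g1 (by omega) ?_ g4
    have : n % d = a % d := g3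
    rw [this, Nat.mod_eq_of_lt h1]
  have h5 : (1 - 1 / ((q : ℝ) + 2)) * phiQ Q d * Real.log d ^ 2 < XX Q q d + 1 := Nat.lt_floor_add_one _
  have h6 : ((XX Q q d + 1 : ℕ) : ℝ) ≤ P A ω Q d := by exact_mod_cast hX
  push_cast at h6
  exact lt_of_lt_of_le h5 h6

end Pool.Agent.Results.MP_458f0b_nt.LargestLeast

open Pool.Agent.Results.MP_458f0b_nt.LargestLeast
open Pool.Agent.R528.RM Pool.Agent.N893.SM

/-- Hawkins' sieve is a sieved model with `Q = ∅`; and in every sieved model, almost surely: (1) for every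
`ε > 0` and all large `d`, `(1 - ε) φ(d) log² d ≤ P(d) ≤ (2 + ε) φ(d) log² d`; (2) for every `ε > 0` there is
`κ > 0` such that for all large `D` at most `D ^ (1 - κ)` of the `d ≤ D` do not satisfy
`|P(d) / (φ(d) log² d) - 1| ≤ ε`. -/
theorem Pool.Agent.Results.MP_458f0b_nt.LargestLeast.result
    {Ω : Type} [m : MeasurableSpace Ω] (μ : Measure Ω) [IsProbabilityMeasure μ]
    (ℱ : Filtration ℕ m) (A : ℕ → Set Ω) :
    (HawkinsSieve μ ℱ A → SievedModel μ ℱ A ∅) ∧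
    (∀ Q : Finset ℕ, (∀ p ∈ Q, p.Prime) → SievedModel μ ℱ A Q → ∀ᵐ ω ∂μ,
      (∀ ε : ℝ, 0 < ε → ∀ᶠ d : ℕ in atTop, (1 - ε) * (phi Q d * Real.log d ^ 2) ≤ P A ω Q d ∧
        P A ω Q d ≤ (2 + ε) * (phi Q d * Real.log d ^ 2)) ∧
      (∀ ε : ℝ, 0 < ε → ∃ κ : ℝ, 0 < κ ∧ ∀ᶠ D : ℕ in atTop,
        ({d : ℕ | 1 ≤ d ∧ d ≤ D ∧ ε < |(P A ω Q d : ℝ) / (phi Q d * Real.log d ^ 2) - 1|}.ncard : ℝ) ≤
          (D : ℝ) ^ (1 - κ))) := by
  classical
  constructor
  · rintro ⟨h1, h2, h3⟩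
    have hs : Pool.Agent.N740.HK.HS μ ℱ A := ⟨h1, h2, fun n hn => by
      filter_upwards [h3 n hn] with ω hω
      have e : (∏ h ∈ Finset.Icc 2 n, if ω ∈ A h then 1 - 1 / (h : ℝ) else 1) =
          (Pool.Agent.N740.HK.Y A n ω)⁻¹ := by
        unfold Pool.Agent.N740.HK.Y
        rw [← Finset.prod_inv_distrib]
        refine Finset.prod_congr rfl fun h hh => ?_
        have h2 : (2 : ℝ) ≤ h := by exact_mod_cast (Finset.mem_Icc.1 hh).1
        by_cases hA : ω ∈ A h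
        · rw [if_pos hA, if_pos hA, inv_div]
          field_simp
        · rw [if_neg hA, if_neg hA, inv_one]
      rw [← e]
      exact hω⟩
    refine ⟨h1, fun n hn => ?_, ?_⟩
    · obtain ⟨p, hp, _⟩ := hn
      exact absurd hp (Finset.notMem_empty p)
    · filter_upwards [Pool.Agent.N740.HK.hawk_dens hs] with ω hω
      rw [Finset.prod_empty]
      exact hω.mono_left inf_le_left
  · rintro Q hQ ⟨hA, hcop, hd⟩
    have hprof := profile (μ := μ) hA Q hQ hcop hd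
    have h01 : ∀ᵐ ω ∂μ, ∀ n, 0 ≤ dens μ ℱ A n ω ∧ dens μ ℱ A n ω ≤ 1 := ae_all_iff.2 fun n => dens01 hA n
    have hU : ∀ᵐ ω ∂μ, ∀ q m : ℕ, ∀ᶠ d : ℕ in atTop, ∀ a : ℕ, 1 ≤ a → a ≤ d →
        GA μ ℱ A (-Real.log (m + 1)) d (JJ Q (2 + 2 / ((q : ℝ) + 1)) d) a ω < (2 + 1 / ((q : ℝ) + 1)) * Real.log d :=
      ae_all_iff.2 fun q => ae_all_iff.2 fun m => errU hA _ (by
        have : 0 < 1 / ((q : ℝ) + 1) := by positivity
        linarith) _
    have hV : ∀ᵐ ω ∂μ, ∀ q m : ℕ, ∀ᶠ D : ℕ in atTop,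
        (((Finset.Icc 1 D).filter (fun d : ℕ => ω ∈ BadV μ ℱ A (-Real.log (m + 1)) (1 / ((q : ℝ) + 1)) (JJ Q (1 + 2 / ((q : ℝ) + 1))) d)).card : ℝ) ≤
          (D : ℝ) ^ (1 - 1 / ((q : ℝ) + 1) / 8) :=
      ae_all_iff.2 fun q => ae_all_iff.2 fun m => errV hA _ (by positivity) (by
        rw [div_le_one (by positivity)]
        have : (0 : ℝ) ≤ q := Nat.cast_nonneg q
        linarith) _
    filter_upwards [h01, hU, hV, hprof, lowerW (μ := μ) hA Q hQ hprof] with ω h01 hU hV hprof hlow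
    have hphi : ∀ d, phi Q d = phiQ Q d := fun d => rfl
    have hphi0 : ∀ d : ℕ, 1 ≤ d → 0 < phiQ Q d := by
      intro d hd
      have hWpos : (0 : ℝ) < ((∏ p ∈ Q, p : ℕ) : ℝ) := by
        exact_mod_cast Finset.prod_pos fun q hq => (hQ q hq).pos
      have hdr : (0 : ℝ) < d := by exact_mod_cast hd
      exact lt_of_lt_of_le (by positivity) (phiQ_bounds Q hQ d).1
    -- upper bound and nonemptiness
    have hup : ∀ q : ℕ, ∀ᶠ d : ℕ in atTop, (P A ω Q d : ℝ) ≤ (2 + 2 / ((q : ℝ) + 1)) * phi Q d * Real.log d ^ 2 ∧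
        {X : ℕ | ∀ a : ℕ, Adm Q d a → ∃ n : ℕ, 1 ≤ n ∧ n ≤ X ∧ n ≡ a [MOD d] ∧ ω ∈ A n}.Nonempty := by
      intro q
      obtain ⟨m, hm⟩ := hit (μ := μ) Q hQ h01 hprof (τ := 2 + 1 / ((q : ℝ) + 1)) (lam := 2 + 2 / ((q : ℝ) + 1)) (by positivity) (by
        have : 0 < 1 / ((q : ℝ) + 1) := by positivity
        have e : 2 / ((q : ℝ) + 1) = 2 * (1 / ((q : ℝ) + 1)) := by ring
        rw [e]
        linarith)
      filter_upwards [hm, hU q m, eventually_ge_atTop 1] with d h1 h2 h3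
      refine P_up h3 (by have := hphi0 d h3; positivity) fun a ha1 ha2 ha3 => ?_
      exact h1 a ha1 ha2 ha3 (h2 a ha1 ha2)
    have hlow2 : ∀ q : ℕ, ∀ᶠ d : ℕ in atTop, (1 - 1 / ((q : ℝ) + 2)) * phi Q d * Real.log d ^ 2 < P A ω Q d := by
      intro q
      filter_upwards [hup 0, hlow q] with d h1 h2
      exact P_low h1.2 h2
    constructor
    · intro ε hε
      obtain ⟨q, hq⟩ := exists_nat_one_div_lt (show (0 : ℝ) < ε / 2 by positivity)
      have hq0 : (0 : ℝ) ≤ q := Nat.cast_nonneg q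
      filter_upwards [hup q, hlow2 q, eventually_ge_atTop 1] with d h1 h2 h3
      have hp := hphi0 d h3
      have hX : 0 ≤ phi Q d * Real.log d ^ 2 := by
        rw [hphi]
        positivity
      constructor
      · have e1 : 1 / ((q : ℝ) + 2) ≤ 1 / ((q : ℝ) + 1) := one_div_le_one_div_of_le (by positivity) (by linarith)
        have e2 : (1 - ε) * (phi Q d * Real.log d ^ 2) ≤ (1 - 1 / ((q : ℝ) + 2)) * (phi Q d * Real.log d ^ 2) :=
          mul_le_mul_of_nonneg_right (by linarith) hX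
        linarith
      · have e : 2 / ((q : ℝ) + 1) = 2 * (1 / ((q : ℝ) + 1)) := by ring
        have e2 : (2 + 2 / ((q : ℝ) + 1)) * (phi Q d * Real.log d ^ 2) ≤ (2 + ε) * (phi Q d * Real.log d ^ 2) :=
          mul_le_mul_of_nonneg_right (by rw [e]; linarith) hX
        linarith [h1.1]
    · intro ε hε
      obtain ⟨q, hq⟩ := exists_nat_one_div_lt (show (0 : ℝ) < ε / 2 by positivity)
      have hq0 : (0 : ℝ) ≤ q := Nat.cast_nonneg q
      set κ : ℝ := 1 / ((q : ℝ) + 1) with hκ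
      have hκ0 : 0 < κ := by positivity
      have hκ1 : κ ≤ 1 := by
        rw [hκ, div_le_one (by positivity)]
        linarith
      obtain ⟨m, hm⟩ := hit (μ := μ) Q hQ h01 hprof (τ := 1 + κ) (lam := 1 + 2 / ((q : ℝ) + 1)) (by positivity) (by
        have e : 2 / ((q : ℝ) + 1) = 2 * κ := by rw [hκ]; ring
        rw [e]
        linarith)
      obtain ⟨d0, hd0⟩ := eventually_atTop.1 (hm.and ((hlow2 q).and (tendsto_log.eventually_gt_atTop (0 : ℝ))))
      refine ⟨κ / 16, by positivity, ?_⟩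
      have hlarge : ∀ᶠ D : ℕ in atTop, (d0 : ℝ) + 1 + (D : ℝ) ^ (1 - κ / 8) ≤ (D : ℝ) ^ (1 - κ / 16) := by
        have h1 : Tendsto (fun D : ℕ => (D : ℝ) ^ (κ / 16)) atTop atTop :=
          (tendsto_rpow_atTop (by positivity)).comp tendsto_natCast_atTop_atTop
        filter_upwards [h1.eventually_ge_atTop ((d0 : ℝ) + 2), eventually_ge_atTop 1] with D h2 h3
        have hD1 : (1 : ℝ) ≤ D := by exact_mod_cast h3
        have hD0 : (0 : ℝ) < D := by linarith
        have e1 : (D : ℝ) ^ (1 - κ / 16) = (D : ℝ) ^ (κ / 16) * (D : ℝ) ^ (1 - κ / 8) := by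
          rw [← Real.rpow_add hD0]
          congr 1
          ring
        have e2 : (1 : ℝ) ≤ (D : ℝ) ^ (1 - κ / 8) := Real.one_le_rpow hD1 (by linarith)
        rw [e1]
        have hd00 : (0 : ℝ) ≤ d0 := Nat.cast_nonneg d0
        nlinarith
      filter_upwards [hV q m, hlarge] with D h1 h2
      refine le_trans ?_ h2
      have hsub : {d : ℕ | 1 ≤ d ∧ d ≤ D ∧ ε < |(P A ω Q d : ℝ) / (phi Q d * Real.log d ^ 2) - 1|} ⊆
          ((Finset.range (d0 + 1) ∪ (Finset.Icc 1 D).filter (fun d : ℕ => ω ∈ BadV μ ℱ A (-Real.log (m + 1)) (1 / ((q : ℝ) + 1)) (JJ Q (1 + 2 / ((q : ℝ) + 1))) d) : Finset ℕ) : Set ℕ) := by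
        rintro d ⟨g1, g2, g3⟩
        rw [Finset.mem_coe, Finset.mem_union]
        by_contra hcon
        push Not at hcon
        obtain ⟨c1, c2⟩ := hcon
        rw [Finset.mem_range, not_lt] at c1
        obtain ⟨k1, k2, k3⟩ := hd0 d (by omega)
        have hnb : ω ∉ BadV μ ℱ A (-Real.log (m + 1)) (1 / ((q : ℝ) + 1)) (JJ Q (1 + 2 / ((q : ℝ) + 1))) d := fun h =>
          c2 (Finset.mem_filter.2 ⟨Finset.mem_Icc.2 ⟨g1, g2⟩, h⟩)
        have hGA : ∀ a : ℕ, 1 ≤ a → a ≤ d → GA μ ℱ A (-Real.log (m + 1)) d (JJ Q (1 + 2 / ((q : ℝ) + 1)) d) a ω < (1 + κ) * Real.log d := by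
          intro a ha1 ha2
          by_contra hc
          apply hnb
          unfold BadV
          simp only [Set.mem_iUnion]
          exact ⟨a, Finset.mem_Icc.2 ⟨ha1, ha2⟩, not_lt.1 hc⟩
        have hp := hphi0 d g1
        have hPup := (P_up (A := A) (ω := ω) (Q := Q) (lam := 1 + 2 / ((q : ℝ) + 1)) g1 (by positivity)
          fun a ha1 ha2 ha3 => k1 a ha1 ha2 ha3 (hGA a ha1 ha2)).1
        have hX : 0 < phi Q d * Real.log d ^ 2 := by
          rw [hphi]
          positivity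
        have e : 2 / ((q : ℝ) + 1) = 2 * κ := by rw [hκ]; ring
        have e1 : 1 / ((q : ℝ) + 2) ≤ κ := one_div_le_one_div_of_le (by positivity) (by linarith)
        have f1 : (P A ω Q d : ℝ) / (phi Q d * Real.log d ^ 2) ≤ 1 + ε := by
          rw [div_le_iff₀ hX]
          have : (1 + 2 / ((q : ℝ) + 1)) * (phi Q d * Real.log d ^ 2) ≤ (1 + ε) * (phi Q d * Real.log d ^ 2) :=
            mul_le_mul_of_nonneg_right (by rw [e]; linarith) hX.le
          linarith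
        have f2 : 1 - ε ≤ (P A ω Q d : ℝ) / (phi Q d * Real.log d ^ 2) := by
          rw [le_div_iff₀ hX]
          have : (1 - ε) * (phi Q d * Real.log d ^ 2) ≤ (1 - 1 / ((q : ℝ) + 2)) * (phi Q d * Real.log d ^ 2) :=
            mul_le_mul_of_nonneg_right (by linarith) hX.le
          linarith
        have f3 : |(P A ω Q d : ℝ) / (phi Q d * Real.log d ^ 2) - 1| ≤ ε := by
          rw [abs_le]
          constructor <;> linarith
        linarith
      have hcard := Set.ncard_le_ncard hsub (Finset.finite_toSet _)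
      rw [Set.ncard_coe_finset] at hcard
      have hcard2 := hcard.trans (Finset.card_union_le _ _)
      rw [Finset.card_range] at hcard2
      calc ({d : ℕ | 1 ≤ d ∧ d ≤ D ∧ ε < |(P A ω Q d : ℝ) / (phi Q d * Real.log d ^ 2) - 1|}.ncard : ℝ) ≤
          ((d0 + 1 + ((Finset.Icc 1 D).filter (fun d : ℕ => ω ∈ BadV μ ℱ A (-Real.log (m + 1)) (1 / ((q : ℝ) + 1)) (JJ Q (1 + 2 / ((q : ℝ) + 1))) d)).card : ℕ) : ℝ) := by
            exact_mod_cast hcard2
        _ ≤ (d0 : ℝ) + 1 + (D : ℝ) ^ (1 - κ / 8) := by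
            push_cast
            linarith
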