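import Pool.Agent.N837.LP.AppA

set_option autoImplicit false

/-! # Every modulus: a positive proportion of the classes has a large least prime

For every `C > 4`, `0 < δ < 1`, every large `A` and every modulus `d ≥ d₀(A)`, at least
`φ(d) exp(-exp(C A))` of the reduced classes `a` modulo `d` contain no prime up to
`A φ(d) log d`; all the members of the class up to that bound are composite, with a prime factor
at most `d ^ δ`. -/

namespace Pool.Agent.Results.MP_458f0b_nt.LeastPrimeTail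

theorem result : ∀ C δ : ℝ, 4 < C → 0 < δ → δ < 1 →
    ∃ A₀ : ℝ, ∀ A : ℝ, A₀ ≤ A → ∃ d₀ : ℕ, ∀ d : ℕ, d₀ ≤ d →
      (d.totient : ℝ) * Real.exp (-Real.exp (C * A)) ≤
        (({a : ℕ | 1 ≤ a ∧ a ≤ d ∧ a.Coprime d ∧ ∀ n : ℕ, 1 ≤ n → n ≡ a [MOD d] →
          (n : ℝ) ≤ A * d.totient * Real.log d →
            ∃ p : ℕ, p.Prime ∧ p ∣ n ∧ p < n ∧ (p : ℝ) ≤ (d : ℝ) ^ δ}).ncard : ℝ) :=
  fun C δ hC hδ hδ1 => Pool.Agent.N837.LP.tailA C δ hC hδ hδ1

end Pool.Agent.Results.MP_458f0b_nt.LeastPrimeTail
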